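import Pool.Agent.R143.CausalMono

/-!
# MP_98ebd8_lc, Q1: disproof, in every dimension `n ≥ 3`

On `ℝⁿ` with coordinates `(t, x, y, z)` put, for a vector `v = (a, p, q, w)` at a point of height
`t`, `b = p cos t + q sin t` and `c = -p sin t + q cos t`, and consider the Lorentz metric
`g(v, v) = -2ab - t²b² + c² + |w|²`.  The plane `t = 0` is a null hypersurface that causal curves
cross only upwards (along a future causal curve `t' ≥ -t²b/2`), and its null generators are not
closed, so its points lie on no closed causal curve.  On each of the two sides any two points are
joined by a causal curve, because one can descend as long as `t ≠ 0` and, the null direction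
rotating with `t`, a rise by `3π/2` lets one reach any position.  Hence every point either is
related to itself or has pairwise comparable successors, and the after-2 formula is valid.
-/

namespace Pool.Agent.Results.MP_98ebd8_lc.ValidCNTV

open Pool.Agent.R143.Causal

/-- In every dimension `n ≥ 3` there is a causally non-totally vicious spacetime on which the
after-2 formula is valid. -/
theorem result : ∀ n : ℕ, 3 ≤ n → ∃ S : Spacetime n, CNTV S ∧ AfterTwoValid (After S) := by
  intro n hn
  obtain ⟨k, rfl⟩ := Nat.exists_eq_add_of_le' hn
  exact ⟨S0 k, cntv, valid⟩

end Pool.Agent.Results.MP_98ebd8_lc.ValidCNTV
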